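import Pool.Agent.Q187.DC.B2b

/-!
# Distributional chaos of type 3 on dendrites does not imply Li-Yorke pairs

Both questions are answered in the negative by one example: there is a continuous self-map of a
dendrite which has an uncountable DC3 set and no Li-Yorke pair at all.

The dendrite is the cone over a closed invariant subset of the product of an odometer and
`{0,1}^ℕ` (`Pool/Agent/Q187/DC/Cone.lean`); the ends of the cone move as in the symbolic system and
all other points reach the root.
-/

set_option autoImplicit false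

open Set Filter Topology

namespace Pool.Agent.Results.MP_5bdc9f_an.NoLiYorkePairs

/-- A dendrite: a compact connected locally connected metric space which contains no subset
homeomorphic to a circle. -/
def IsDendrite (X : Type) [MetricSpace X] : Prop :=
  CompactSpace X ∧ ConnectedSpace X ∧ LocallyConnectedSpace X ∧
    ∀ s : Set X, IsEmpty (s ≃ₜ Circle)

/-- `(1/n) #{0 ≤ k ≤ n : d(f^k x, f^k y) < δ}`. -/
noncomputable def freq {X : Type} [MetricSpace X] (f : X → X) (x y : X) (δ : ℝ) (n : ℕ) : ℝ :=
  (((Finset.range (n + 1)).filter (fun k => dist (f^[k] x) (f^[k] y) < δ)).card : ℝ) / n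

/-- The lower distribution function `Φ_xy(δ)`, in the extended reals. -/
noncomputable def lower {X : Type} [MetricSpace X] (f : X → X) (x y : X) (δ : ℝ) : EReal :=
  liminf (fun n => ((freq f x y δ n : ℝ) : EReal)) atTop

/-- The upper distribution function `Φ*_xy(δ)`, in the extended reals. -/
noncomputable def upper {X : Type} [MetricSpace X] (f : X → X) (x y : X) (δ : ℝ) : EReal :=
  limsup (fun n => ((freq f x y δ n : ℝ) : EReal)) atTop

/-- Li-Yorke pairs. -/
def IsLYPair {X : Type} [MetricSpace X] (f : X → X) (x y : X) : Prop :=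
  x ≠ y ∧ liminf (fun k => ((dist (f^[k] x) (f^[k] y) : ℝ) : EReal)) atTop = 0 ∧
    0 < limsup (fun k => ((dist (f^[k] x) (f^[k] y) : ℝ) : EReal)) atTop

/-- DC3 pairs. -/
def IsDC3Pair {X : Type} [MetricSpace X] (f : X → X) (x y : X) : Prop :=
  x ≠ y ∧ ∃ a b : ℝ, 0 ≤ a ∧ a < b ∧ b ≤ Metric.diam (univ : Set X) ∧
    ∀ δ : ℝ, a < δ → δ < b → lower f x y δ < upper f x y δ

/-- There is a continuous self-map of a dendrite with an uncountable DC3 set and without Li-Yorke
pairs. -/
theorem result : ∃ (X : Type) (_ : MetricSpace X) (f : X → X), IsDendrite X ∧ Continuous f ∧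
    (∃ D : Set X, ¬ D.Countable ∧ ∀ x ∈ D, ∀ y ∈ D, x ≠ y → IsDC3Pair f x y) ∧
    ∀ x y, ¬ IsLYPair f x y :=
  ⟨Pool.Agent.Q187.DC.Cone Pool.Agent.Q187.DC.S2, inferInstance,
    Pool.Agent.Q187.DC.fS Pool.Agent.Q187.DC.S2_inv, Pool.Agent.Q187.DC.main2⟩

end Pool.Agent.Results.MP_5bdc9f_an.NoLiYorkePairs
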